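import Pool.Agent.FS.BottSamelson2.Final

set_option autoImplicit false

namespace FS8e5b3d

open Pool.Agent.Lib.MP_8e5b3d_co Polynomial

variable {B W : Type} [Group W] {M : CoxeterMatrix B} (cs : CoxeterSystem M W)

/-- Coefficientwise evaluation. -/
noncomputable def evm (h : W →₀ ℤ[X]) : W →₀ LaurentPolynomial ℤ :=
  Finsupp.mapRange ev (map_zero ev) h

omit [Group W] in
theorem evm_apply (h : W →₀ ℤ[X]) (u : W) : evm h u = ev (h u) := Finsupp.mapRange_apply

omit [Group W] in
theorem evm_add (h g : W →₀ ℤ[X]) : evm (h + g) = evm h + evm g := by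
  ext u : 1
  simp only [evm_apply, Finsupp.add_apply, map_add]

omit [Group W] in
theorem evm_sub (h g : W →₀ ℤ[X]) : evm (h - g) = evm h - evm g := by
  ext u : 1
  simp only [evm_apply, Finsupp.sub_apply, map_sub]

omit [Group W] in
theorem evm_smul (p : ℤ[X]) (h : W →₀ ℤ[X]) : evm (p • h) = ev p • evm h := by
  ext u : 1
  simp only [evm_apply, Finsupp.smul_apply, smul_eq_mul, map_mul]

/-- Bar invariance of weight `n`. -/
def BW (h : W →₀ ℤ[X]) (n : ℕ) : Prop :=
  bar cs (evm h) = (LaurentPolynomial.T (-2 * (n : ℤ)) : LaurentPolynomial ℤ) • evm h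

theorem BW.sub {h g : W →₀ ℤ[X]} {n : ℕ} (hh : BW cs h n) (hg : BW cs g n) : BW cs (h - g) n := by
  unfold BW at *
  rw [evm_sub, bar_sub, hh, hg, smul_sub]

theorem BW.add {h g : W →₀ ℤ[X]} {n : ℕ} (hh : BW cs h n) (hg : BW cs g n) : BW cs (h + g) n := by
  unfold BW at *
  rw [evm_add, bar_add, hh, hg, smul_add]

theorem BW.zero (n : ℕ) : BW cs 0 n := by
  have : evm (0 : W →₀ ℤ[X]) = 0 := Finsupp.mapRange_zero
  unfold BW
  rw [this, bar_zero, smul_zero]

theorem BW.mono {h : W →₀ ℤ[X]} {n : ℕ} (hh : BW cs h n) (k : ℕ) (a : ℤ) :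
    BW cs ((monomial k a : ℤ[X]) • h) (n + 2 * k) := by
  unfold BW at *
  have e : ev (monomial k a) = a • (LaurentPolynomial.T (k * 2) : LaurentPolynomial ℤ) := by
    rw [ev_apply, Polynomial.aeval_monomial, LaurentPolynomial.T_pow, Algebra.smul_def]
  rw [evm_smul, bar_smul, hh, e, map_zsmul, LaurentPolynomial.invert_T, smul_smul, smul_smul,
    smul_mul_assoc, mul_smul_comm, ← LaurentPolynomial.T_add, ← LaurentPolynomial.T_add]
  congr 3
  push_cast
  ring

theorem bw_iff (x : W) (P : W →₀ ℤ[X]) :
    (∃ C : W →₀ LaurentPolynomial ℤ,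
      (∀ u, C u = LaurentPolynomial.T (-(cs.length x : ℤ)) *
        Polynomial.aeval (LaurentPolynomial.T 2 : LaurentPolynomial ℤ) (P u)) ∧ bar cs C = C) ↔
    BW cs P (cs.length x) := by
  constructor
  · rintro ⟨C, h1, h2⟩
    have e : C = (LaurentPolynomial.T (-(cs.length x : ℤ)) : LaurentPolynomial ℤ) • evm P := by
      ext u : 1
      rw [h1, Finsupp.smul_apply, evm_apply, ev_apply, smul_eq_mul]
    rw [e, bar_smul, LaurentPolynomial.invert_T] at h2
    have h3 := congrArg
      (fun z => (LaurentPolynomial.T (-(cs.length x : ℤ)) : LaurentPolynomial ℤ) • z) h2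
    simp only [smul_smul, ← LaurentPolynomial.T_add, neg_neg, neg_add_cancel,
      LaurentPolynomial.T_zero, one_smul] at h3
    unfold BW
    rw [h3]
    congr 2
    ring
  · intro h
    refine ⟨(LaurentPolynomial.T (-(cs.length x : ℤ)) : LaurentPolynomial ℤ) • evm P,
      fun u => by rw [Finsupp.smul_apply, evm_apply, ev_apply, smul_eq_mul], ?_⟩
    rw [bar_smul, h, LaurentPolynomial.invert_T, smul_smul, ← LaurentPolynomial.T_add]
    congr 2
    ring

theorem kl_of {x : W} {P : W →₀ ℤ[X]} (h1 : P x = 1) (h2 : ∀ u, P u ≠ 0 → BruhatLE cs u x)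
    (h3 : ∀ u, u ≠ x → P u ≠ 0 → 2 * (P u).natDegree + cs.length u + 1 ≤ cs.length x)
    (h4 : BW cs P (cs.length x)) : IsKLColumn cs x P := by
  refine ⟨h1, fun u hu => by_contra fun h => hu (h2 u h), fun u hu hne => ?_, (bw_iff cs x P).mpr h4⟩
  by_cases h : P u = 0
  · have := hu.eq_or_lt.resolve_left hne
    rw [h, natDegree_zero]
    omega
  · exact h3 u hne h

theorem correct {x : W} (C : W → W →₀ ℤ[X])
    (hC : ∀ z, cs.length z < cs.length x → IsKLColumn cs z (C z)) {D : W →₀ ℤ[X]}
    (h1 : D x = 1) (h2 : ∀ u, D u ≠ 0 → BruhatLE cs u x) (h3 : Bc cs D 0 (cs.length x))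
    (h4 : BW cs D (cs.length x)) : ∃ P : W →₀ ℤ[X], IsKLColumn cs x P := by
  classical
  let S : Finset W := (D.support.erase x).filter
    fun z => 2 * (D z).natDegree + cs.length z = cs.length x
  have hS : ∀ z ∈ S, BruhatLE cs z x ∧ cs.length z < cs.length x ∧
      2 * (D z).natDegree + cs.length z = cs.length x := by
    intro z hz
    obtain ⟨a1, a2⟩ := Finset.mem_filter.mp hz
    have a3 := h2 z (Finsupp.mem_support_iff.mp (Finset.mem_of_mem_erase a1))
    exact ⟨a3, a3.eq_or_lt.resolve_left (Finset.ne_of_mem_erase a1), a2⟩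
  let m : W → ℤ[X] := fun z => monomial (D z).natDegree (D z).leadingCoeff
  have hb : ∀ z ∈ S, ∀ u, C z u ≠ 0 → BruhatLE cs u z := fun z hz u hu =>
    by_contra fun h => hu ((hC z (hS z hz).2.1).2.1 u h)
  have key : D - ∑ z ∈ S, m z • C z =
      (D - ∑ z ∈ S, m z • Finsupp.single z 1) - ∑ z ∈ S, m z • (C z - Finsupp.single z 1) := by
    simp only [smul_sub, Finset.sum_sub_distrib]
    abel
  have hq : Bc cs (∑ z ∈ S, m z • (C z - Finsupp.single z 1)) 1 (cs.length x) := by
    refine Bc.sum _ _ fun z hz => ?_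
    have b : Bc cs (C z - Finsupp.single z 1) 1 (cs.length z) := by
      intro u hu
      have hk := hC z (hS z hz).2.1
      by_cases e : u = z
      · rw [e, Finsupp.sub_apply, hk.1, Finsupp.single_eq_same, sub_self] at hu
        exact absurd rfl hu
      · rw [Finsupp.sub_apply, Finsupp.single_eq_of_ne e, sub_zero] at hu ⊢
        exact hk.2.2.1 u (hb z hz u hu) e
    refine (b.smul (m z)).mono ?_
    have := (hS z hz).2.2
    have : (m z).natDegree ≤ (D z).natDegree := natDegree_monomial_le _
    omega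
  have hs : ∀ u, (∑ z ∈ S, m z • Finsupp.single z (1 : ℤ[X])) u = if u ∈ S then m u else 0 := by
    intro u
    rw [Finsupp.finsetSum_apply]
    simp only [Finsupp.smul_apply, smul_eq_mul, Finsupp.single_apply, mul_ite, mul_one, mul_zero]
    exact Finset.sum_ite_eq' S u m
  have hp : Bc cs (D - ∑ z ∈ S, m z • Finsupp.single z 1 - Finsupp.single x 1) 1 (cs.length x) := by
    intro u hu
    have hx : x ∉ S := fun h => by have := (hS x h).2.1; omega
    by_cases e : u = x
    · rw [e, Finsupp.sub_apply, Finsupp.sub_apply, hs, if_neg hx, h1, Finsupp.single_eq_same,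
        sub_zero, sub_self] at hu
      exact absurd rfl hu
    rw [Finsupp.sub_apply, Finsupp.sub_apply, hs, Finsupp.single_eq_of_ne e, sub_zero] at hu ⊢
    split_ifs at hu ⊢ with h5
    · have a1 := (hS u h5).2.2
      have e2 : D u - m u = (D u).eraseLead := self_sub_monomial_natDegree_leadingCoeff _
      rw [e2] at hu ⊢
      have := (D u).eraseLead_natDegree_lt_or_eraseLead_eq_zero.resolve_right hu
      omega
    · rw [sub_zero] at hu ⊢
      have a1 := h3 u hu
      have a2 : ¬ 2 * (D u).natDegree + cs.length u = cs.length x := fun h =>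
        h5 (Finset.mem_filter.mpr ⟨Finset.mem_erase.mpr ⟨e, Finsupp.mem_support_iff.mpr hu⟩, h⟩)
      omega
  have hr := hp.sub hq
  rw [sub_right_comm, ← key] at hr
  refine ⟨D - ∑ z ∈ S, m z • C z, kl_of cs ?_ ?_ ?_ ?_⟩
  · have : (D - ∑ z ∈ S, m z • C z - Finsupp.single x 1 : W →₀ ℤ[X]) x = 0 := by
      by_contra h
      have := hr x h
      omega
    rw [Finsupp.sub_apply, Finsupp.single_eq_same] at this
    exact sub_eq_zero.mp this
  · intro u hu
    by_cases h : D u = 0
    · rw [Finsupp.sub_apply, h, zero_sub, neg_ne_zero, Finsupp.finsetSum_apply] at hu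
      obtain ⟨z, hz, h5⟩ := Finset.exists_ne_zero_of_sum_ne_zero hu
      rw [Finsupp.smul_apply, smul_eq_mul] at h5
      exact Relation.ReflTransGen.trans (hb z hz u (right_ne_zero_of_mul h5)) (hS z hz).1
    · exact h2 u h
  · intro u e hu
    have := hr u (by rwa [Finsupp.sub_apply, Finsupp.single_eq_of_ne e, sub_zero])
    rwa [Finsupp.sub_apply, Finsupp.single_eq_of_ne e, sub_zero] at this
  · refine BW.sub cs h4 (Finset.sum_induction _ (fun h => BW cs h (cs.length x))
      (fun _ _ => BW.add cs) (BW.zero cs _) fun z hz => ?_)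
    have := ((bw_iff cs z (C z)).mp (hC z (hS z hz).2.1).2.2.2).mono cs (D z).natDegree
      (D z).leadingCoeff
    rwa [add_comm, (hS z hz).2.2] at this

/-- Existence of the Kazhdan-Lusztig columns in an arbitrary Coxeter system. -/
theorem exists_kl (x : W) : ∃ P : W →₀ ℤ[X], IsKLColumn cs x P := by
  classical
  induction hn : cs.length x using Nat.strong_induction_on generalizing x with
  | _ n ih =>
  subst hn
  have hC : ∀ z, ∃ P : W →₀ ℤ[X], cs.length z < cs.length x → IsKLColumn cs z P := fun z => by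
    by_cases h : cs.length z < cs.length x
    · obtain ⟨P, hP⟩ := ih _ h z rfl
      exact ⟨P, fun _ => hP⟩
    · exact ⟨0, fun h' => absurd h' h⟩
  choose C hC using hC
  by_cases hx : x = 1
  · subst hx
    refine ⟨Finsupp.single 1 1, kl_of cs Finsupp.single_eq_same (fun u hu => ?_)
      (fun u e hu => absurd (Finsupp.single_eq_of_ne e) hu) ?_⟩
    · by_cases e : u = 1
      · rw [e]; exact Relation.ReflTransGen.refl
      · exact absurd (Finsupp.single_eq_of_ne e) hu
    · unfold BW evm
      rw [Finsupp.mapRange_single, map_one, bar_one]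
      simp
  obtain ⟨s, hs⟩ := cs.exists_leftDescent_of_ne_one hx
  have hs' : cs.length (cs.simple s * x) < cs.length x := hs
  have hy := hC _ hs'
  have hl := cs.length_simple_mul x s
  obtain ⟨y, rfl⟩ : ∃ y, x = cs.simple s * y := ⟨cs.simple s * x, by
    rw [cs.simple_mul_simple_cancel_left]⟩
  rw [cs.simple_mul_simple_cancel_left] at hs' hy hl
  have hb : ∀ u, C y u ≠ 0 → BruhatLE cs u y := fun u hu => by_contra fun h => hu (hy.2.1 u h)
  have hd := fun u (hu : C y u ≠ 0) => kl_deg cs hy (Finsupp.mem_support_iff.mpr hu)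
  have hf : ∀ u, (C y + mulT cs X s (C y)) u =
      if cs.length u < cs.length (cs.simple s * u) then C y u + X * C y (cs.simple s * u)
      else C y (cs.simple s * u) + X * C y u := by
    intro u
    rw [Finsupp.add_apply, mulT_apply]
    split_ifs <;> ring
  have d1 : ∀ p : ℤ[X], (X * p).natDegree ≤ p.natDegree + 1 := fun p =>
    natDegree_mul_le.trans (by simp [add_comm])
  refine correct cs C hC (D := C y + mulT cs X s (C y)) ?_ ?_ ?_ ?_
  · have h0 : C y (cs.simple s * y) = 0 := by
      by_contra h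
      have := (hd _ h).2
      omega
    rw [hf, cs.simple_mul_simple_cancel_left, if_neg (by omega), hy.1, h0, mul_zero, add_zero]
  · intro u hu
    by_cases h1 : C y u = 0
    · have h2 : C y (cs.simple s * u) ≠ 0 := fun h2 => hu (by rw [hf, h1, h2]; simp)
      have := lift_le cs s (hb _ h2)
      rw [cs.simple_mul_simple_cancel_left] at this
      rcases this with h | h
      · exact Relation.ReflTransGen.trans h (bruhat_simple cs hs')
      · exact h
    · exact Relation.ReflTransGen.trans (hb u h1) (bruhat_simple cs hs')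
  · intro u hu
    have a0 := cs.length_simple_mul u s
    rw [hf] at hu ⊢
    have gen : ∀ a b : ℤ[X], a + X * b ≠ 0 →
        (a ≠ 0 → 2 * a.natDegree + cs.length u ≤ cs.length (cs.simple s * y)) →
        (b ≠ 0 → 2 * b.natDegree + 2 + cs.length u ≤ cs.length (cs.simple s * y)) →
        2 * (a + X * b).natDegree + cs.length u + 0 ≤ cs.length (cs.simple s * y) := by
      intro a b h0 ha hb
      have := d1 b
      by_cases e1 : a = 0
      · have e2 : b ≠ 0 := fun e2 => h0 (by rw [e1, e2]; simp)
        have := hb e2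
        rw [e1, zero_add]
        omega
      · have := ha e1
        by_cases e2 : b = 0
        · rw [e2, mul_zero, add_zero a]; omega
        · have := hb e2
          have := natDegree_add_le a (X * b)
          omega
    split_ifs at hu ⊢ with h1
    · exact gen _ _ hu (fun h => by have := (hd _ h).2; omega) (fun h => by have := (hd _ h).2; omega)
    · refine gen _ _ hu (fun h => by have := (hd _ h).2; omega) (fun h => ?_)
      have := (hd _ h).1 (by rintro rfl; omega)
      omega
  · have h1 := (bw_iff cs y (C y)).mp hy.2.2.2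
    have h2 := bi_gen cs s (evm (C y))
    have h3 : evm (C y + mulT cs X s (C y)) =
        (1 + mulT cs (LaurentPolynomial.T 2) s : Module.End _ _) (evm (C y)) := by
      rw [evm_add, LinearMap.add_apply, Module.End.one_apply]
      congr 1
      unfold evm
      rw [mapRange_mulT, ev_X]
    unfold BW at *
    rw [h3, h2, h1, map_smul, smul_smul, ← LaurentPolynomial.T_add]
    congr 2
    have : cs.length (cs.simple s * y) = cs.length y + 1 := by omega
    rw [this]
    push_cast
    ring

end FS8e5b3d
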