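import Pool.Agent.FS.BottSamelson.Main

set_option autoImplicit false

namespace FS8e5b3d

open Pool.Agent.Lib.MP_8e5b3d_co Polynomial

section Gen

open LaurentPolynomial

variable {B W : Type} [Group W] {M : CoxeterMatrix B} (cs : CoxeterSystem M W)

theorem bar_opw (ω : List B) (h : W →₀ ℤ[T;T⁻¹]) :
    bar cs (opw cs (T 2) ω h) = opi cs ω (bar cs h) := by
  induction ω with
  | nil => simp
  | cons s ω ih => rw [opw_cons, opi_cons, Module.End.mul_apply, Module.End.mul_apply, bar_mulT, ih]

theorem bar_sum {ι : Type} (s : Finset ι) (f : ι → W →₀ ℤ[T;T⁻¹]) :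
    bar cs (∑ x ∈ s, f x) = ∑ x ∈ s, bar cs (f x) := by
  classical
  induction s using Finset.induction_on with
  | empty => simp
  | insert a s ha ih => rw [Finset.sum_insert ha, Finset.sum_insert ha, bar_add, ih]

theorem commute_opi_rho (ω : List B) (r : B) : Commute (opi cs ω) (rho cs (T 2) r) :=
  Commute.list_prod_left _ _ fun y hy => by
    obtain ⟨t, _, rfl⟩ := List.mem_map.mp hy
    exact ((commute_rho cs (T 2) t r).smul_left _).add_left ((Commute.one_left _).smul_left _)

/-- Evaluation at `q = T 2`. -/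
noncomputable def ev : ℤ[X] →+* ℤ[T;T⁻¹] := (Polynomial.aeval (R := ℤ) (T 2 : ℤ[T;T⁻¹])).toRingHom

theorem ev_X : ev X = T 2 := by simp [ev]

theorem ev_apply (p : ℤ[X]) : ev p = Polynomial.aeval (T 2 : ℤ[T;T⁻¹]) p := rfl

theorem kl_bar {x : W} {P : W →₀ ℤ[X]} (hP : IsKLColumn cs x P) :
    ∑ u ∈ P.support, invert (ev (P u)) • barT cs u =
      (T (-2 * (cs.length x : ℤ)) : ℤ[T;T⁻¹]) •
        ∑ u ∈ P.support, ev (P u) • Finsupp.single u (1 : ℤ[T;T⁻¹]) := by
  classical
  obtain ⟨-, -, -, C, h1, h2⟩ := hP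
  have e : C = (T (-(cs.length x : ℤ)) : ℤ[T;T⁻¹]) •
      ∑ u ∈ P.support, ev (P u) • Finsupp.single u (1 : ℤ[T;T⁻¹]) := by
    ext v : 1
    rw [h1, Finsupp.smul_apply, smul_eq_mul, Finsupp.finsetSum_apply, ← ev_apply]
    congr 1
    rw [Finset.sum_eq_single v]
    · simp
    · intro b _ hb
      rw [Finsupp.smul_apply, Finsupp.single_eq_of_ne (Ne.symm hb), smul_zero]
    · intro hv
      rw [Finsupp.notMem_support_iff.mp hv]
      simp
  rw [e, bar_smul, bar_sum, invert_T] at h2
  simp only [bar_smul, bar_single, map_one, one_smul] at h2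
  have h3 := congrArg (fun z => (T (-(cs.length x : ℤ)) : ℤ[T;T⁻¹]) • z) h2
  simp only [smul_smul, ← T_add, neg_neg, neg_add_cancel, T_zero, one_smul] at h3
  rw [h3]
  congr 2
  ring

end Gen

variable {B K W W' : Type} [Group W] [Group W'] {M : CoxeterMatrix B}
  (cs : CoxeterSystem M W) (cs' : CoxeterSystem (ext M K) W')

section BarInv

open LaurentPolynomial

theorem lam_mulT (s : B) (h : W →₀ ℤ[T;T⁻¹]) :
    Finsupp.lmapDomain _ ℤ[T;T⁻¹] (inc cs cs') (mulT cs (T 2) s h) =
      mulT cs' (T 2) (.inl s) (Finsupp.lmapDomain _ ℤ[T;T⁻¹] (inc cs cs') h) := by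
  induction h using Finsupp.induction_linear with
  | zero => simp
  | add f g hf hg => simp only [map_add, hf, hg]
  | single u a =>
    rw [mulT_single, Finsupp.lmapDomain_apply _ _ _ (Finsupp.single u a), Finsupp.mapDomain_single,
      mulT_single, ← inc_simple cs cs', ← map_mul, len_inc, len_inc]
    split_ifs
    · rw [Finsupp.lmapDomain_apply, Finsupp.mapDomain_single]
    · rw [map_add, map_smul, map_smul, Finsupp.lmapDomain_apply, Finsupp.lmapDomain_apply,
        Finsupp.mapDomain_single, Finsupp.mapDomain_single]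

theorem lam_opi (ω : List B) (h : W →₀ ℤ[T;T⁻¹]) :
    Finsupp.lmapDomain _ ℤ[T;T⁻¹] (inc cs cs') (opi cs ω h) =
      opi cs' (ω.map .inl) (Finsupp.lmapDomain _ ℤ[T;T⁻¹] (inc cs cs') h) := by
  induction ω with
  | nil => simp
  | cons s ω ih =>
    rw [List.map_cons, opi_cons, opi_cons, Module.End.mul_apply, Module.End.mul_apply, ← ih]
    simp only [mulTinv, LinearMap.add_apply, LinearMap.smul_apply, Module.End.one_apply, map_add,
      map_smul, lam_mulT]

theorem bi_cop {x : W} {P : W →₀ ℤ[X]} (hP : IsKLColumn cs x P) :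
    BI cs' (cop cs cs' ev P) (cs.length x) := by
  have key : (∑ u ∈ P.support, invert (ev (P u)) • opi cs' ((rw0 cs u).map .inl)) =
      (T (-2 * (cs.length x : ℤ)) : ℤ[T;T⁻¹]) • cop cs cs' ev P := by
    refine op_ext cs' (T 2) (fun r => ?_) (fun r => ?_) ?_
    · exact Commute.sum_left _ _ _ fun u _ => (commute_opi_rho cs' _ r).smul_left _
    · refine Commute.smul_left ?_ _
      unfold cop
      rw [ev_X]
      exact Commute.sum_left _ _ _ fun u _ => (commute_opw_rho cs' _ _ r).smul_left _
    · have h1 := congrArg (Finsupp.lmapDomain _ ℤ[T;T⁻¹] (inc cs cs')) (kl_bar cs hP)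
      rw [map_smul, map_sum, map_sum] at h1
      rw [LinearMap.smul_apply, cop_apply, LinearMap.sum_apply]
      convert h1 using 2
      · rw [LinearMap.smul_apply, map_smul, barT_eq, lam_opi, Finsupp.lmapDomain_apply,
          Finsupp.mapDomain_single, map_one]
        rfl
      · refine Finset.sum_congr rfl fun u _ => ?_
        rw [map_smul, Finsupp.lmapDomain_apply, Finsupp.mapDomain_single,
          opw_one_of_reduced cs' _ (reduced_map cs cs' (rw0_red cs u)), ← inc_wordProd cs cs',
          rw0_prod]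
  intro h
  rw [← LinearMap.smul_apply, ← key, cop_apply, bar_sum, LinearMap.sum_apply]
  refine Finset.sum_congr rfl fun u _ => ?_
  rw [bar_smul, ev_X, bar_opw, LinearMap.smul_apply]

theorem bi_blk (b : List K) : BI cs' (blk cs' (T 2) b) b.length := by
  induction b with
  | nil => simpa [blk] using BI.one
  | cons m b ih =>
    have := (bi_gen cs' (.inr m)).mul ih
    rw [add_comm 1 b.length] at this
    exact this

end BarInv

/-- The data: an element, its column, and a block of new generators. -/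
abbrev Dat (W K : Type) : Type := (W × (W →₀ ℤ[X])) × List K

/-- The total operator. -/
noncomputable def tot {R : Type} [CommRing R] (φ : ℤ[X] →+* R) (l : List (Dat W K)) :
    Module.End R (W' →₀ R) :=
  (l.map fun p => cop cs cs' φ p.1.2 * blk cs' (φ X) p.2).prod

theorem tot_cons {R : Type} [CommRing R] (φ : ℤ[X] →+* R) (p : Dat W K) (l : List (Dat W K))
    (h : W' →₀ R) :
    tot cs cs' φ (p :: l) h = cop cs cs' φ p.1.2 (blk cs' (φ X) p.2 (tot cs cs' φ l h)) := by
  simp [tot]

theorem tot_nil {R : Type} [CommRing R] (φ : ℤ[X] →+* R) (h : W' →₀ R) :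
    tot cs cs' φ ([] : List (Dat W K)) h = h := by simp [tot]

/-- The full word. -/
noncomputable def wd (l : List (Dat W K)) : List (B ⊕ K) :=
  l.flatMap fun p => (rw0 cs p.1.1).map .inl ++ p.2.map .inr

theorem wd_cons (p : Dat W K) (l : List (Dat W K)) :
    wd cs (p :: l) = (rw0 cs p.1.1).map .inl ++ (p.2.map .inr ++ wd cs l) := by
  simp [wd]

theorem wd_len (p : Dat W K) (l : List (Dat W K)) :
    (wd cs (p :: l)).length = cs.length p.1.1 + (p.2.length + (wd cs l).length) := by
  simp [wd_cons, rw0_len]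

theorem mem_wd {l : List (Dat W K)} {m : K} (h : (.inr m : B ⊕ K) ∈ wd cs l) :
    m ∈ l.flatMap fun p => p.2 := by
  simpa [wd] using h

theorem bi_tot (l : List (Dat W K)) (hl : ∀ p ∈ l, IsKLColumn cs p.1.1 p.1.2) :
    BI cs' (tot cs cs' ev l) (wd cs l).length := by
  induction l with
  | nil => simpa [tot, wd] using BI.one
  | cons p l ih =>
    have := ((bi_cop cs cs' (hl p List.mem_cons_self)).mul (bi_blk cs' p.2)).mul
      (ih fun a ha => hl a (List.mem_cons_of_mem _ ha))
    rw [wd_len, ← add_assoc, tot, List.map_cons, List.prod_cons, ev_X]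
    simpa only [tot, ev_X] using this

theorem map_tot (l : List (Dat W K)) (h : W' →₀ ℤ[X]) :
    Finsupp.mapRange ev (map_zero ev) (tot cs cs' (RingHom.id _) l h) =
      tot cs cs' ev l (Finsupp.mapRange ev (map_zero ev) h) := by
  induction l with
  | nil => rw [tot_nil, tot_nil]
  | cons p l ih =>
    rw [tot_cons, tot_cons, ← ih]
    generalize tot cs cs' (RingHom.id _) l h = g
    have h1 : Finsupp.mapRange ev (map_zero ev) (blk cs' X p.2 g) =
        blk cs' (ev X) p.2 (Finsupp.mapRange ev (map_zero ev) g) := by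
      induction p.2 with
      | nil => rw [blk_nil, blk_nil]
      | cons m b ih2 =>
        rw [blk_cons, blk_cons, Finsupp.mapRange_add (map_add ev), mapRange_mulT, ih2]
    rw [← h1, RingHom.id_apply]
    generalize blk cs' X p.2 g = g'
    ext v : 1
    rw [Finsupp.mapRange_apply, cop_apply, cop_apply, Finsupp.finsetSum_apply,
      Finsupp.finsetSum_apply, map_sum]
    refine Finset.sum_congr rfl fun u _ => ?_
    rw [Finsupp.smul_apply, Finsupp.smul_apply, smul_eq_mul, smul_eq_mul, map_mul, ← mapRange_opw,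
      Finsupp.mapRange_apply]
    rfl

theorem supp_tot (l : List (Dat W K)) (hl : ∀ p ∈ l, IsKLColumn cs p.1.1 p.1.2) :
    SuppIn cs' (tot cs cs' (RingHom.id _) l (Finsupp.single 1 1)) (wd cs l) := by
  induction l with
  | nil =>
    rw [tot_nil]
    simpa [wd] using supp_single (cs := cs') (R := ℤ[X]) []
  | cons p l ih =>
    rw [tot_cons, wd_cons]
    exact supp_cop cs cs' _ (hl p List.mem_cons_self)
      (supp_blk cs' _ _ (ih fun a ha => hl a (List.mem_cons_of_mem _ ha)))

theorem split_nodup {p : Dat W K} {l : List (Dat W K)}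
    (h : ((p :: l).flatMap fun p => p.2).Nodup) :
    p.2.Nodup ∧ (l.flatMap fun p => p.2).Nodup ∧ ∀ m ∈ p.2, (.inr m : B ⊕ K) ∉ wd cs l := by
  rw [List.flatMap_cons, List.nodup_append] at h
  exact ⟨h.1, h.2.1, fun m hm h2 => h.2.2 m hm m (mem_wd cs h2) rfl⟩

theorem trace_tot (l : List (Dat W K)) (hl : ∀ p ∈ l, IsKLColumn cs p.1.1 p.1.2)
    (hn : (l.flatMap fun p => p.2).Nodup) (u : W) :
    tot cs cs' (RingHom.id _) l (Finsupp.single 1 1) (inc cs cs' u) =
      (l.map fun p => p.1.2.sum fun y a => a • opw cs X (rw0 cs y)).prod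
        (Finsupp.single 1 1) u := by
  induction l generalizing u with
  | nil =>
    rw [tot_nil, List.map_nil, List.prod_nil, Module.End.one_apply]
    by_cases h : u = 1
    · rw [h, map_one]; simp
    · rw [Finsupp.single_eq_of_ne h, Finsupp.single_eq_of_ne]
      intro e
      apply h
      rw [← ret_inc cs cs' u, e, map_one]
  | cons p l ih =>
    obtain ⟨h1, h2, h3⟩ := split_nodup cs hn
    have hl' := fun a ha => hl a (List.mem_cons_of_mem _ ha)
    rw [tot_cons, List.map_cons, List.prod_cons, Module.End.mul_apply, cop_apply, Finsupp.sum,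
      LinearMap.sum_apply, Finsupp.finsetSum_apply, Finsupp.finsetSum_apply]
    refine Finset.sum_congr rfl fun y _ => ?_
    rw [LinearMap.smul_apply, Finsupp.smul_apply, Finsupp.smul_apply, RingHom.id_apply,
      RingHom.id_apply]
    congr 1
    refine opw_inc cs cs' X _ (fun v => ?_) u
    rw [← ih hl' h2 v, ← sub_eq_zero, ← Finsupp.sub_apply]
    by_contra h0
    exact not_lead cs cs' v (lead_blk cs' X p.2 h1 (supp_tot cs cs' l hl') h3 _ h0)

theorem inv_tot (L : ℕ) (hL0 : 0 < L) (l : List (Dat W K))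
    (hl : ∀ p ∈ l, IsKLColumn cs p.1.1 p.1.2)
    (hn : (l.flatMap fun p => p.2).Nodup) (hL : ∀ p ∈ l, L ≤ p.2.length) :
    cs'.IsReduced (wd cs l) ∧ ∃ F G : W' →₀ ℤ[X],
      tot cs cs' (RingHom.id _) l (Finsupp.single 1 1) =
        Finsupp.single (cs'.wordProd (wd cs l)) 1 + F + G ∧
      SuppIn cs' F (wd cs l) ∧ SuppIn cs' G (wd cs l) ∧ Bc cs' F 1 (wd cs l).length ∧
      Bc cs' G L ((wd cs l).length + (l.map fun p => cs.length p.1.1).sum) := by
  induction l with
  | nil =>
    refine ⟨by simp [wd, CoxeterSystem.IsReduced], 0, 0, by simp [tot, wd], ?_, ?_,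
      Bc.zero _ _, Bc.zero _ _⟩ <;> exact fun u hu => absurd rfl hu
  | cons p l ih =>
    obtain ⟨h1, h2, h3⟩ := split_nodup cs hn
    have hl' := fun a ha => hl a (List.mem_cons_of_mem _ ha)
    have hP := hl p List.mem_cons_self
    have hb := hL p List.mem_cons_self
    obtain ⟨hr, F, G, e, sF, sG, bF, bG⟩ := ih hl' h2 fun a ha => hL a (List.mem_cons_of_mem _ ha)
    obtain ⟨hr1, b1⟩ := top_blk cs' p.2 h1 hr h3
    have hlead : Lead cs' (cs'.wordProd (p.2.map .inr ++ wd cs l)) := by
      obtain ⟨m, b, hb'⟩ := List.exists_cons_of_length_pos (l := p.2) (by omega)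
      rw [hb'] at h1 h3 ⊢
      exact ⟨m, _, not_mem_blk (List.nodup_cons.mp h1).1 (h3 m List.mem_cons_self), by
        rw [List.map_cons, List.cons_append, cs'.wordProd_cons]⟩
    obtain ⟨hr2, b2⟩ := top_cop cs cs' hP hr1 hlead
    have s0 := supp_single (cs := cs') (R := ℤ[X]) (wd cs l)
    have b0 : Bc cs' (Finsupp.single (cs'.wordProd (wd cs l)) 1) 0 (wd cs l).length := by
      have := Bc.single (cs := cs') (cs'.wordProd (wd cs l))
      rwa [hr.eq] at this
    have sub1 : (wd cs l).Sublist (p.2.map .inr ++ wd cs l) := List.sublist_append_right _ _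
    rw [wd_len, wd_cons, tot_cons, e, RingHom.id_apply, List.map_cons, List.sum_cons]
    refine ⟨hr2, ?_⟩
    generalize hw : Finsupp.single (cs'.wordProd (wd cs l)) (1 : ℤ[X]) = t0 at *
    have s1 := supp_single (cs := cs') (R := ℤ[X]) (p.2.map .inr ++ wd cs l)
    have l1 : ∀ v, Finsupp.single (cs'.wordProd (p.2.map .inr ++ wd cs l)) (1 : ℤ[X]) v ≠ 0 →
        Lead cs' v := fun v hv => by
      by_cases e : v = cs'.wordProd (p.2.map .inr ++ wd cs l)
      · rwa [e]
      · exact absurd (Finsupp.single_eq_of_ne e) hv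
    generalize Finsupp.single (cs'.wordProd (p.2.map .inr ++ wd cs l)) (1 : ℤ[X]) = t1 at *
    have s2 := supp_single (cs := cs') (R := ℤ[X])
      ((rw0 cs p.1.1).map .inl ++ (p.2.map .inr ++ wd cs l))
    generalize Finsupp.single
      (cs'.wordProd ((rw0 cs p.1.1).map .inl ++ (p.2.map .inr ++ wd cs l))) (1 : ℤ[X]) = t2 at *
    have sK : ∀ h : W' →₀ ℤ[X], SuppIn cs' h (wd cs l) →
        SuppIn cs' (blk cs' X p.2 h - h) (p.2.map .inr ++ wd cs l) := fun h hh =>
      supp_sub (supp_blk cs' X p.2 hh) (supp_mono hh sub1)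
    have bK : ∀ (h : W' →₀ ℤ[X]) (c N : ℕ), SuppIn cs' h (wd cs l) → Bc cs' h c N →
        Bc cs' (blk cs' X p.2 h - h) c (N + p.2.length) := fun h c N hh hc =>
      (bc_blk cs' p.2 h1 hh h3 hc).sub (hc.mono (by omega))
    have hlen : (p.2.map (Sum.inr : K → B ⊕ K) ++ wd cs l).length =
      p.2.length + (wd cs l).length := by simp
    refine ⟨(cop cs cs' (RingHom.id _) p.1.2 t1 - t2) +
        cop cs cs' (RingHom.id _) p.1.2 (blk cs' X p.2 t0 - t0 - t1) +
        cop cs cs' (RingHom.id _) p.1.2 (blk cs' X p.2 F - F),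
      cop cs cs' (RingHom.id _) p.1.2 (t0 + F + G) +
        cop cs cs' (RingHom.id _) p.1.2 (blk cs' X p.2 G - G), ?_, ?_, ?_, ?_, ?_⟩
    · simp only [map_add, map_sub]
      abel
    · exact supp_add (supp_add (supp_sub (supp_cop cs cs' _ hP s1) s2)
        (supp_cop cs cs' _ hP (supp_sub (sK _ s0) s1))) (supp_cop cs cs' _ hP (sK _ sF))
    · exact supp_add (supp_cop cs cs' _ hP (supp_mono (supp_add (supp_add s0 sF) sG) sub1))
        (supp_cop cs cs' _ hP (sK _ sG))
    · refine Bc.add (Bc.add (b2.mono (by omega)) ?_) ?_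
      · refine (bc_cop_lead cs cs' hP (c := 1) (N := (wd cs l).length + p.2.length) ?_
          fun v hv => ?_).mono (by omega)
        · rw [sub_right_comm]
          exact b1.sub (b0.mono (by omega))
        · by_cases h4 : t1 v = 0
          · rw [Finsupp.sub_apply, h4, sub_zero] at hv
            exact lead_blk cs' X p.2 h1 s0 h3 v hv
          · exact l1 v h4
      · exact (bc_cop_lead cs cs' hP (bK _ _ _ sF bF) (lead_blk cs' X p.2 h1 sF h3)).mono (by omega)
    · refine Bc.add ((bc_cop cs cs' hP (c := 0)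
        (N := (wd cs l).length + (l.map fun p => cs.length p.1.1).sum) ?_).mono (by omega)) ?_
      · exact ((b0.mono (by omega)).add (bF.mono (by omega))).add (bG.mono (by omega))
      · exact (bc_cop cs cs' hP (bK _ _ _ sG bG)).mono (by omega)

theorem exists_column (l : List (Dat W K)) (hl : ∀ p ∈ l, IsKLColumn cs p.1.1 p.1.2)
    (hn : (l.flatMap fun p => p.2).Nodup)
    (hL : ∀ p ∈ l, (l.map fun p => cs.length p.1.1).sum + 1 ≤ p.2.length) :
    IsKLColumn cs' (cs'.wordProd (wd cs l))
      (tot cs cs' (RingHom.id _) l (Finsupp.single 1 1)) := by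
  obtain ⟨hr, F, G, e, -, -, bF, bG⟩ := inv_tot cs cs' _ (by omega) l hl hn hL
  have hQ : Bc cs' (F + G) 1 (wd cs l).length := bF.add (bG.mono (by omega))
  have hlen := hr.eq
  rw [add_assoc] at e
  refine ⟨?_, ?_, ?_, ?_⟩
  · have : (F + G) (cs'.wordProd (wd cs l)) = 0 := by
      by_contra h
      have := hQ _ h
      omega
    rw [e, Finsupp.add_apply, this, Finsupp.single_eq_same, add_zero]
  · intro u hu
    by_contra h
    obtain ⟨η, h1, rfl⟩ := supp_tot cs cs' l hl u h
    exact hu (bruhat_of_sublist cs' h1 hr)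
  · intro u hu hne
    rw [e, Finsupp.add_apply, Finsupp.single_eq_of_ne hne, zero_add]
    by_cases h : (F + G) u = 0
    · have := hu.eq_or_lt.resolve_left hne
      rw [h, Polynomial.natDegree_zero]
      omega
    · have := hQ u h
      omega
  · refine ⟨(LaurentPolynomial.T (-(cs'.length (cs'.wordProd (wd cs l)) : ℤ)) :
        LaurentPolynomial ℤ) • tot cs cs' ev l (Finsupp.single 1 1), fun u => ?_, ?_⟩
    · have := map_tot cs cs' l (Finsupp.single 1 1)
      rw [Finsupp.mapRange_single, map_one] at this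
      rw [Finsupp.smul_apply, smul_eq_mul, ← this, Finsupp.mapRange_apply, ev_apply]
    · rw [bar_smul, bi_tot cs cs' l hl, bar_one, LaurentPolynomial.invert_T, smul_smul,
        ← LaurentPolynomial.T_add, hlen]
      congr 2
      ring

omit [Group W'] in
theorem main (l : List (W × (W →₀ ℤ[X]))) (hl : ∀ p ∈ l, IsKLColumn cs p.1 p.2) :
    ∃ (K : Type) (_ : Finite K) (w : (ext M K).Group) (P : (ext M K).Group → ℤ[X]),
      IsKLColumn (ext M K).toCoxeterSystem w P ∧
      P 1 = (l.map fun p => p.2.sum fun y a => a • opw cs X (rw0 cs y)).prod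
        (Finsupp.single 1 1) 1 := by
  let L := (l.map fun p => cs.length p.1).sum + 1
  let d : List (Dat W (Fin l.length × Fin L)) :=
    (List.finRange l.length).map fun i => (l.get i, (List.finRange L).map fun j => (i, j))
  have e : ∀ {α : Type} (f : W × (W →₀ ℤ[X]) → α), (d.map fun p => f p.1) = l.map f := by
    intro α f
    conv_rhs => rw [← List.map_get_finRange l]
    simp only [d, List.map_map]
    rfl
  have h1 : ∀ p ∈ d, IsKLColumn cs p.1.1 p.1.2 := by
    intro p hp
    obtain ⟨i, _, rfl⟩ := List.mem_map.mp hp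
    exact hl _ (List.get_mem _ _)
  have h2 : (d.flatMap fun p => p.2).Nodup := by
    have := (List.nodup_finRange l.length).product (List.nodup_finRange L)
    simp only [d, List.flatMap_map]
    exact this
  refine ⟨Fin l.length × Fin L, inferInstance, _, _,
    exists_column cs (ext M _).toCoxeterSystem d h1 h2 ?_, ?_⟩
  · intro p hp
    obtain ⟨i, _, rfl⟩ := List.mem_map.mp hp
    rw [e fun p => cs.length p.1]
    simp [L]
  · have := trace_tot cs (ext M _).toCoxeterSystem d h1 h2 1
    rw [map_one] at this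
    rw [this, e fun p => p.2.sum fun y a => a • opw cs X (rw0 cs y)]

end FS8e5b3d
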